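import Pool.Agent.P8H40.PL.Stm

/-! Project PY, package QUP: the fundamental matrix of the polylogarithms at `0`. -/

set_option autoImplicit false

open PowerSeries

namespace Pool.Agent.P8H37.PL

open Pool.Agent.P8H40.PL

/-- the polylogarithms as complex power series -/
noncomputable def lic (a : ℤ) (s : ℕ) : ℂ⟦X⟧ := PowerSeries.mk fun m => (a : ℂ) ^ m / (m : ℂ) ^ s

/-- integer polynomials as complex power series -/
noncomputable def cp : Polynomial ℤ →+* ℂ⟦X⟧ :=
  (Polynomial.coeToPowerSeries.ringHom).comp (Polynomial.mapRingHom (Int.castRingHom ℂ))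

lemma cp_eq (P : Polynomial ℤ) :
    ((P.map (Int.castRingHom ℂ) : Polynomial ℂ) : ℂ⟦X⟧) = cp P := rfl

lemma cp_X : cp Polynomial.X = (X : ℂ⟦X⟧) := by simp [← cp_eq]

lemma cp_C (a : ℤ) : cp (Polynomial.C a) = C (a : ℂ) := by
  rw [← cp_eq, Polynomial.map_C, Polynomial.coe_C]
  rfl

lemma lic_succ (a : ℤ) (s : ℕ) :
    (X : ℂ⟦X⟧) * PowerSeries.derivative ℂ (lic a (s + 2)) = lic a (s + 1) := by
  ext m
  cases m with
  | zero => simp [lic]
  | succ m =>
    rw [coeff_succ_X_mul, coeff_derivative, lic, coeff_mk, lic, coeff_mk]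
    have h : ((m : ℂ) + 1) ≠ 0 := by exact_mod_cast Nat.succ_ne_zero m
    push_cast
    rw [pow_succ _ (s + 1)]
    field_simp

lemma lic_one (a : ℤ) :
    (1 - C (a : ℂ) * X) * ((X : ℂ⟦X⟧) * PowerSeries.derivative ℂ (lic a 1)) = C (a : ℂ) * X := by
  have h1 : (X : ℂ⟦X⟧) * PowerSeries.derivative ℂ (lic a 1) =
      PowerSeries.mk fun m => if m = 0 then 0 else (a : ℂ) ^ m := by
    ext m
    cases m with
    | zero => simp
    | succ m =>
      rw [coeff_succ_X_mul, coeff_derivative, lic, coeff_mk, coeff_mk, if_neg (Nat.succ_ne_zero m)]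
      have h : ((m : ℂ) + 1) ≠ 0 := by exact_mod_cast Nat.succ_ne_zero m
      push_cast
      rw [pow_one, div_mul_cancel₀ _ h]
  rw [h1, sub_mul, one_mul, mul_assoc]
  ext m
  rw [map_sub, coeff_C_mul, coeff_C_mul]
  cases m with
  | zero => simp
  | succ m =>
    rw [coeff_succ_X_mul, coeff_mk, coeff_mk, if_neg (Nat.succ_ne_zero m), coeff_X]
    by_cases hm : m = 0
    · subst hm
      simp
    · rw [if_neg hm, if_neg (by omega), pow_succ, mul_zero]
      ring

/-- the fundamental matrix, polynomials in the logarithm -/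
noncomputable def Phi {n : ℕ} (α : Fin n → ℤ) (W : ℕ) :
    Option (Fin n × Fin W) → Option (Fin n × Fin W) → Polynomial ℂ⟦X⟧
  | none, none => 1
  | none, some _ => 0
  | some v, none => Polynomial.C (lic (α v.1) (v.2 + 1))
  | some v, some v' => if v.1 = v'.1 ∧ (v'.2 : ℕ) ≤ v.2 then
      Polynomial.monomial ((v.2 : ℕ) - v'.2) (C (1 / (((v.2 : ℕ) - v'.2).factorial : ℂ))) else 0

/-- the sums over the neighbours -/
lemma sum_AA {n W : ℕ} (α : Fin n → ℤ) (v : Fin n × Fin W) (G : Fin n × Fin W → ℂ⟦X⟧) :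
    ((v.2 : ℕ) = 0 → ∑ w, cp (AA α W (some v) (some w)) * G w = 0) ∧
    ∀ (t : ℕ) (_ : (v.2 : ℕ) = t + 1) (ht' : t < W), ∑ w, cp (AA α W (some v) (some w)) * G w =
      cp (pr α Finset.univ) * G (v.1, ⟨t, ht'⟩) := by
  constructor
  · intro h
    refine Finset.sum_eq_zero fun w _ => ?_
    rw [show AA α W (some v) (some w) = 0 from if_neg (by rintro ⟨-, h2⟩; omega), map_zero,
      zero_mul]
  · intro t ht ht'
    rw [Finset.sum_eq_single (v.1, ⟨t, ht'⟩)]
    · rw [show AA α W (some v) (some (v.1, ⟨t, ht'⟩)) = pr α Finset.univ from if_pos ⟨rfl, ht⟩]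
    · intro w _ hw
      rw [show AA α W (some v) (some w) = 0 from if_neg (by
        rintro ⟨h1, h2⟩
        exact hw (Prod.ext h1.symm (Fin.ext (show (w.2 : ℕ) = t by omega)))), map_zero, zero_mul]
    · intro h
      exact absurd (Finset.mem_univ _) h

lemma cp_pr {n : ℕ} (α : Fin n → ℤ) (i : Fin n) : cp (pr α Finset.univ) =
    (1 - C (α i : ℂ) * X) * cp (pr α (Finset.univ.erase i)) := by
  have h1 : pr α Finset.univ = (1 - Polynomial.C (α i) * Polynomial.X) *
      pr α (Finset.univ.erase i) := (Finset.mul_prod_erase _ _ (Finset.mem_univ i)).symm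
  rw [h1, map_mul, map_sub, map_one, map_mul, cp_C, cp_X]

lemma phi_bound {n W : ℕ} (α : Fin n → ℤ) : ∃ K : ℝ, ∀ i j k m,
    ‖coeff m ((Phi α W i j).coeff k)‖ ≤ K ^ (m + 1) := by
  classical
  obtain ⟨K, hK⟩ : ∃ K : ℝ, K = 1 + ∑ i, |(α i : ℝ)| := ⟨_, rfl⟩
  have K1 : 1 ≤ K := by
    rw [hK]
    have : 0 ≤ ∑ i, |(α i : ℝ)| := Finset.sum_nonneg fun _ _ => abs_nonneg _
    linarith
  have Ka : ∀ i, |(α i : ℝ)| ≤ K := fun i => by
    rw [hK]
    have := Finset.single_le_sum (f := fun i => |(α i : ℝ)|) (fun _ _ => abs_nonneg _)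
      (Finset.mem_univ i)
    linarith
  have hone : ∀ m, 1 ≤ K ^ (m + 1) := fun m => one_le_pow₀ K1
  have hC : ∀ (c : ℂ) (m : ℕ), ‖c‖ ≤ 1 → ‖coeff m (C c)‖ ≤ K ^ (m + 1) := by
    intro c m hc
    rw [coeff_C]
    split_ifs
    · exact hc.trans (hone m)
    · rw [norm_zero]
      exact zero_le_one.trans (hone m)
  have h0 : ∀ m, ‖coeff m (0 : ℂ⟦X⟧)‖ ≤ K ^ (m + 1) := by
    intro m
    rw [map_zero, norm_zero]
    exact zero_le_one.trans (hone m)
  refine ⟨K, fun i j k m => ?_⟩
  rcases i with _ | v <;> rcases j with _ | v'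
  · change ‖coeff m ((1 : Polynomial ℂ⟦X⟧).coeff k)‖ ≤ _
    rw [Polynomial.coeff_one]
    split_ifs
    · have := hC 1 m (by simp)
      rwa [map_one] at this
    · exact h0 m
  · change ‖coeff m ((0 : Polynomial ℂ⟦X⟧).coeff k)‖ ≤ _
    rw [Polynomial.coeff_zero]
    exact h0 m
  · change ‖coeff m ((Polynomial.C (lic (α v.1) (v.2 + 1))).coeff k)‖ ≤ _
    rw [Polynomial.coeff_C]
    split_ifs
    · rw [lic, coeff_mk, norm_div, norm_pow, norm_pow, Complex.norm_intCast, Complex.norm_natCast]
      rcases Nat.eq_zero_or_pos m with hm | hm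
      · subst hm
        simp only [Nat.cast_zero, pow_succ, mul_zero, div_zero]
        positivity
      · have h1 : (1 : ℝ) ≤ (m : ℝ) ^ ((v.2 : ℕ) + 1) := one_le_pow₀ (by exact_mod_cast hm)
        have h2 : |(α v.1 : ℝ)| ^ m ≤ K ^ m := pow_le_pow_left₀ (abs_nonneg _) (Ka v.1) m
        calc |(α v.1 : ℝ)| ^ m / (m : ℝ) ^ ((v.2 : ℕ) + 1) ≤ |(α v.1 : ℝ)| ^ m :=
              div_le_self (by positivity) h1
          _ ≤ K ^ m := h2
          _ ≤ K ^ (m + 1) := pow_le_pow_right₀ K1 (Nat.le_succ m)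
    · exact h0 m
  · change ‖coeff m ((if v.1 = v'.1 ∧ (v'.2 : ℕ) ≤ v.2 then
      Polynomial.monomial ((v.2 : ℕ) - v'.2) (C (1 / (((v.2 : ℕ) - v'.2).factorial : ℂ))) else 0 :
        Polynomial ℂ⟦X⟧).coeff k)‖ ≤ _
    split_ifs
    · rw [Polynomial.coeff_monomial]
      split_ifs
      · refine hC _ m ?_
        rw [norm_div, norm_one, Complex.norm_natCast]
        refine div_le_one_of_le₀ ?_ (Nat.cast_nonneg _)
        exact_mod_cast Nat.factorial_pos _
      · exact h0 m
    · rw [Polynomial.coeff_zero]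
      exact h0 m

/-- the constant terms -/
noncomputable def ev0 : Polynomial ℂ⟦X⟧ →+* ℂ :=
  (PowerSeries.constantCoeff (R := ℂ)).comp (Polynomial.evalRingHom 0)

lemma phi_det {n W : ℕ} (α : Fin n → ℤ) :
    (Matrix.of (Phi α W) : Matrix (Option (Fin n × Fin W)) (Option (Fin n × Fin W))
      (Polynomial ℂ⟦X⟧)).det ≠ 0 := by
  classical
  intro h
  have h1 : (ev0.mapMatrix (Matrix.of (Phi α W) : Matrix (Option (Fin n × Fin W))
      (Option (Fin n × Fin W)) (Polynomial ℂ⟦X⟧))) = 1 := by
    ext i j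
    rw [RingHom.mapMatrix_apply, Matrix.map_apply, Matrix.of_apply]
    rcases i with _ | v <;> rcases j with _ | v'
    · rw [Matrix.one_apply_eq]
      exact map_one ev0
    · rw [Matrix.one_apply_ne (by simp)]
      exact map_zero ev0
    · rw [Matrix.one_apply_ne (by simp)]
      change ev0 (Polynomial.C (lic (α v.1) (v.2 + 1))) = 0
      simp [ev0, lic, ← coeff_zero_eq_constantCoeff_apply]
    · change ev0 (if v.1 = v'.1 ∧ (v'.2 : ℕ) ≤ v.2 then
        Polynomial.monomial ((v.2 : ℕ) - v'.2) (C (1 / (((v.2 : ℕ) - v'.2).factorial : ℂ))) else 0) = _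
      by_cases hv : v = v'
      · subst hv
        rw [Matrix.one_apply_eq, if_pos ⟨rfl, le_rfl⟩]
        simp [ev0]
      · rw [Matrix.one_apply_ne (by simpa using hv)]
        split_ifs with hc
        · have hne : (v.2 : ℕ) - v'.2 ≠ 0 := by
            intro h2
            apply hv
            refine Prod.ext hc.1 (Fin.ext ?_)
            have := hc.2
            omega
          simp [ev0, Polynomial.eval_monomial, zero_pow hne]
        · exact map_zero ev0
  have h2 : (1 : ℂ) = 0 := by
    calc (1 : ℂ) = (1 : Matrix (Option (Fin n × Fin W)) (Option (Fin n × Fin W)) ℂ).det :=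
          Matrix.det_one.symm
      _ = (ev0.mapMatrix (Matrix.of (Phi α W))).det := by rw [h1]
      _ = ev0 (Matrix.of (Phi α W)).det := (RingHom.map_det ev0 _).symm
      _ = 0 := by rw [h, map_zero]
  exact one_ne_zero h2

/-- the equations -/
lemma phi_eq {n W : ℕ} (α : Fin n → ℤ) (i j : Option (Fin n × Fin W)) (k : ℕ) :
    cp (TT α) * ((X : ℂ⟦X⟧) * PowerSeries.derivative ℂ ((Phi α W i j).coeff k) +
      ((k : ℂ⟦X⟧) + 1) * (Phi α W i j).coeff (k + 1)) =
    X * ∑ l, cp (AA α W i l) * (Phi α W l j).coeff k := by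
  classical
  have hTT : cp (TT α) = X * cp (pr α Finset.univ) := by rw [TT, map_mul, cp_X]
  rw [hTT, Fintype.sum_option]
  rcases i with _ | v
  · have hA : ∀ l, AA α W none l = 0 := fun _ => rfl
    simp only [hA, map_zero, zero_mul, Finset.sum_const_zero, add_zero, mul_zero]
    rcases j with _ | v'
    · have e : Phi α W none none = 1 := rfl
      rw [e, Polynomial.coeff_one, Polynomial.coeff_one, if_neg (Nat.succ_ne_zero k)]
      split_ifs <;> simp
    · have e : Phi α W none (some v') = 0 := rfl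
      rw [e]
      simp
  · rcases j with _ | v'
    · have e0 : Phi α W none none = 1 := rfl
      have e1 : ∀ w : Fin n × Fin W, Phi α W (some w) none =
        Polynomial.C (lic (α w.1) (w.2 + 1)) := fun _ => rfl
      simp only [e0, e1, Polynomial.coeff_one, Polynomial.coeff_C, if_neg (Nat.succ_ne_zero k),
        mul_zero, add_zero]
      by_cases hk : k = 0
      · simp only [if_pos hk, mul_one]
        rcases Nat.eq_zero_or_pos (v.2 : ℕ) with hv | hv
        · rw [(sum_AA α v fun w => lic (α w.1) (w.2 + 1)).1 hv, add_zero]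
          have hA : AA α W (some v) none =
            Polynomial.C (α v.1) * (Polynomial.X * pr α (Finset.univ.erase v.1)) := if_pos hv
          rw [hA, hv, cp_pr α v.1, map_mul, map_mul, cp_C, cp_X]
          have h1 := lic_one (α v.1)
          rw [zero_add]
          linear_combination (X * cp (pr α (Finset.univ.erase v.1))) * h1
        · obtain ⟨t, ht⟩ : ∃ t, (v.2 : ℕ) = t + 1 := ⟨(v.2 : ℕ) - 1, by omega⟩
          have ht' : t < W := by have := v.2.2; omega
          rw [(sum_AA α v fun w => lic (α w.1) (w.2 + 1)).2 t ht ht']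
          have hA : AA α W (some v) none = 0 := if_neg (by omega)
          rw [hA, map_zero, zero_add, ht]
          have h1 := lic_succ (α v.1) t
          linear_combination (X * cp (pr α Finset.univ)) * h1
      · simp only [if_neg hk, mul_zero, Finset.sum_const_zero, add_zero, map_zero]
    · have e0 : Phi α W none (some v') = 0 := rfl
      have e1 : ∀ w : Fin n × Fin W, Phi α W (some w) (some v') =
        if w.1 = v'.1 ∧ (v'.2 : ℕ) ≤ w.2 then
          Polynomial.monomial ((w.2 : ℕ) - v'.2) (C (1 / (((w.2 : ℕ) - v'.2).factorial : ℂ)))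
        else 0 := fun _ => rfl
      have hder : PowerSeries.derivative ℂ ((Phi α W (some v) (some v')).coeff k) = 0 := by
        rw [e1]
        split_ifs
        · rw [Polynomial.coeff_monomial]
          split_ifs
          · rw [derivative_C]
          · rw [map_zero]
        · rw [Polynomial.coeff_zero, map_zero]
      rw [hder, e0, Polynomial.coeff_zero, mul_zero, mul_zero, zero_add, zero_add]
      rcases Nat.eq_zero_or_pos (v.2 : ℕ) with hv | hv
      · rw [(sum_AA α v _).1 hv, e1]
        have h1 : (if v.1 = v'.1 ∧ (v'.2 : ℕ) ≤ v.2 then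
          Polynomial.monomial ((v.2 : ℕ) - v'.2) (C (1 / (((v.2 : ℕ) - v'.2).factorial : ℂ)))
          else 0 : Polynomial ℂ⟦X⟧).coeff (k + 1) = 0 := by
          split_ifs
          · rw [Polynomial.coeff_monomial, if_neg (by omega)]
          · rw [Polynomial.coeff_zero]
        rw [h1, mul_zero, mul_zero, mul_zero]
      · obtain ⟨t, ht⟩ : ∃ t, (v.2 : ℕ) = t + 1 := ⟨(v.2 : ℕ) - 1, by omega⟩
        have ht' : t < W := by have := v.2.2; omega
        rw [(sum_AA α v fun w => (Phi α W (some w) (some v')).coeff k).2 t ht ht', e1, e1, ht]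
        by_cases hc : v.1 = v'.1 ∧ (v'.2 : ℕ) ≤ t
        · rw [if_pos hc, if_pos ⟨hc.1, by omega⟩, Polynomial.coeff_monomial,
            Polynomial.coeff_monomial]
          have hd : t + 1 - (v'.2 : ℕ) = t - v'.2 + 1 := by omega
          rw [hd]
          change X * cp (pr α Finset.univ) * (((k : ℂ⟦X⟧) + 1) * (if t - (v'.2 : ℕ) + 1 = k + 1 then
            C (1 / ((t - (v'.2 : ℕ) + 1).factorial : ℂ)) else 0)) = X * (cp (pr α Finset.univ) *
            (if t - (v'.2 : ℕ) = k then C (1 / ((t - (v'.2 : ℕ)).factorial : ℂ)) else 0))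
          by_cases hk : t - (v'.2 : ℕ) = k
          · rw [if_pos (by omega), if_pos hk, hk]
            have h2 : ((k : ℂ⟦X⟧) + 1) * C (1 / ((k + 1).factorial : ℂ)) =
                C (1 / (k.factorial : ℂ)) := by
              have h3 : ((k : ℂ⟦X⟧) + 1) = C ((k : ℂ) + 1) := by simp
              rw [h3, ← map_mul, Nat.factorial_succ]
              congr 1
              have h4 : ((k : ℂ) + 1) ≠ 0 := by exact_mod_cast Nat.succ_ne_zero k
              have h5 : (k.factorial : ℂ) ≠ 0 := by exact_mod_cast Nat.factorial_ne_zero k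
              push_cast
              field_simp
            rw [h2, mul_assoc]
          · rw [if_neg (by omega), if_neg hk, mul_zero, mul_zero, mul_zero, mul_zero]
        · have h3 : (if v.1 = v'.1 ∧ (v'.2 : ℕ) ≤ t + 1 then
            Polynomial.monomial (t + 1 - (v'.2 : ℕ)) (C (1 / ((t + 1 - (v'.2 : ℕ)).factorial : ℂ)))
            else 0 : Polynomial ℂ⟦X⟧).coeff (k + 1) = 0 := by
            split_ifs with h4
            · rw [Polynomial.coeff_monomial, if_neg]
              intro h5
              exact hc ⟨h4.1, by omega⟩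
            · rw [Polynomial.coeff_zero]
          rw [h3, mul_zero, mul_zero]
          rw [if_neg hc, Polynomial.coeff_zero, mul_zero, mul_zero]

theorem qup : S_QUP := by
  intro n W α
  obtain ⟨K, hK⟩ := phi_bound (W := W) α
  refine ⟨1, one_ne_zero, 0, K, Matrix.of (Phi α W), hK, fun i j k => ?_, ?_⟩
  · have h := phi_eq α i j k
    simp only [expand_one_apply, cp_eq, Matrix.of_apply, Nat.cast_one, Nat.cast_zero, one_mul,
      pow_one, zero_mul, sub_zero]
    exact h
  · exact phi_det α

end Pool.Agent.P8H37.PL
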